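import Pool.Agent.Helper11.S3.Sheet
open MeasureTheory Metric Set Filter Topology Real
open scoped ENNReal NNReal

namespace H11ST
namespace S3

theorem lon_decomp (e f g v : E 3) (he : ‖e‖ = 1) (hf : ‖f‖ = 1) (hg : ‖g‖ = 1)
    (hef : inner ℝ e f = (0 : ℝ)) (heg : inner ℝ e g = (0 : ℝ)) (hfg : inner ℝ f g = (0 : ℝ)) :
    v = (inner ℝ e v : ℝ) • e + (inner ℝ f v : ℝ) • f + (inner ℝ g v : ℝ) • g := by
  have ho : Orthonormal ℝ ![e, f, g] := by
    rw [orthonormal_iff_ite]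
    have hfe : inner ℝ f e = (0 : ℝ) := by rw [real_inner_comm]; exact hef
    have hge : inner ℝ g e = (0 : ℝ) := by rw [real_inner_comm]; exact heg
    have hgf : inner ℝ g f = (0 : ℝ) := by rw [real_inner_comm]; exact hfg
    intro i j
    fin_cases i <;> fin_cases j <;>
      simp [he, hf, hg, hef, heg, hfg, hfe, hge, hgf]
  have hcard : Fintype.card (Fin 3) = Module.finrank ℝ (E 3) := by simp
  have hspan : (⊤ : Submodule ℝ (E 3)) ≤ Submodule.span ℝ (Set.range ![e, f, g]) := by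
    rw [← coe_basisOfOrthonormalOfCardEqFinrank ho hcard, Module.Basis.span_eq]
  have h := (OrthonormalBasis.mk ho hspan).sum_repr' v
  rw [Fin.sum_univ_three] at h
  simp only [OrthonormalBasis.coe_mk] at h
  simpa using h.symm

theorem lon_sq (e f g : E 3) (he : ‖e‖ = 1) (hf : ‖f‖ = 1)
    (hef : inner ℝ e f = (0 : ℝ)) (a b : ℝ) : ‖a • e + b • f‖ ^ 2 = a ^ 2 + b ^ 2 := by
  rw [norm_add_sq_real, norm_smul, norm_smul, he, hf, inner_smul_left, inner_smul_right, hef]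
  simp

theorem lon : S3_LON := by
  intro x ρ hρ e f g he hf hg hef heg hfg m hm p hp
  obtain ⟨v, hv⟩ : ∃ v : E 3, v = p - x := ⟨_, rfl⟩
  have hvn : ‖v‖ = ρ := by rw [hv, ← dist_eq_norm]; exact hp
  obtain ⟨a, ha⟩ : ∃ a : ℝ, a = inner ℝ e v := ⟨_, rfl⟩
  obtain ⟨b, hb⟩ : ∃ b : ℝ, b = inner ℝ f v := ⟨_, rfl⟩
  obtain ⟨z, hz⟩ : ∃ z : ℝ, z = inner ℝ g v := ⟨_, rfl⟩
  have hdec : v = a • e + b • f + z • g := by
    rw [ha, hb, hz]
    exact lon_decomp e f g v he hf hg hef heg hfg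
  have hz' : inner ℝ v g = z := by rw [real_inner_comm, hz]
  have hρ2 : ρ ^ 2 = a ^ 2 + b ^ 2 + z ^ 2 := by
    rw [← hvn, hdec, norm_add_sq_real, lon_sq e f g he hf hef, norm_smul, hg, inner_smul_right,
      inner_add_left, inner_smul_left, inner_smul_left, heg, hfg]
    simp
  obtain ⟨r, hr⟩ : ∃ r : ℝ, r = √(ρ ^ 2 - z ^ 2) := ⟨_, rfl⟩
  have hr0 : 0 ≤ r := by rw [hr]; exact Real.sqrt_nonneg _
  have hr2 : r ^ 2 = a ^ 2 + b ^ 2 := by
    rw [hr, Real.sq_sqrt (by rw [hρ2]; nlinarith [sq_nonneg a, sq_nonneg b]), hρ2]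
    ring
  -- the angle
  obtain ⟨φ, hφ0, hφ1, hca, hcb⟩ : ∃ φ : ℝ, 0 ≤ φ ∧ φ < 2 * π ∧ a = r * cos φ ∧ b = r * sin φ := by
    obtain ⟨w, hw⟩ : ∃ w : ℂ, w = ⟨a, b⟩ := ⟨_, rfl⟩
    have hwn : ‖w‖ = r := by
      have h1 : ‖w‖ ^ 2 = r ^ 2 := by
        rw [← Complex.normSq_eq_norm_sq, hw, Complex.normSq_mk, hr2]
        ring
      exact (pow_left_inj₀ (norm_nonneg _) hr0 (by norm_num)).1 h1
    have h2 : a = r * cos (Complex.arg w) ∧ b = r * sin (Complex.arg w) := by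
      by_cases h0 : w = 0
      · have h3 : r = 0 := by rw [← hwn, h0, norm_zero]
        have h4 : a = 0 ∧ b = 0 := by
          rw [hw] at h0
          exact ⟨congrArg Complex.re h0, congrArg Complex.im h0⟩
        rw [h3, h4.1, h4.2]
        simp
      · have h5 : 0 < r := by rw [← hwn]; exact norm_pos_iff.2 h0
        rw [Complex.cos_arg h0, Complex.sin_arg, hwn, hw]
        constructor
        · field_simp
        · field_simp
    by_cases h6 : 0 ≤ Complex.arg w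
    · exact ⟨Complex.arg w, h6, by linarith [Complex.arg_le_pi w, Real.pi_pos], h2.1, h2.2⟩
    · refine ⟨Complex.arg w + 2 * π, by linarith [Complex.neg_pi_lt_arg w, Real.pi_pos],
        by linarith, ?_, ?_⟩
      · rw [Real.cos_add_two_pi]; exact h2.1
      · rw [Real.sin_add_two_pi]; exact h2.2
  have hmpos : (0 : ℝ) < m := by exact_mod_cast hm
  have hd : 0 < π / m := by positivity
  obtain ⟨d, hdd⟩ : ∃ d : ℝ, d = π / m := ⟨_, rfl⟩
  have hdm : d * m = π := by rw [hdd]; field_simp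
  rw [← hdd] at hd
  -- the latitude
  have hzr : -1 ≤ z / ρ ∧ z / ρ ≤ 1 := by
    have h1 : z ^ 2 ≤ ρ ^ 2 := by rw [hρ2]; nlinarith [sq_nonneg a, sq_nonneg b]
    have h2 := abs_le_of_sq_le_sq' h1 hρ.le
    constructor
    · rw [le_div_iff₀ hρ]; linarith [h2.1]
    · rw [div_le_iff₀ hρ]; linarith [h2.2]
  have hcos : cos (arccos (z / ρ)) = z / ρ := Real.cos_arccos hzr.1 hzr.2
  have hsin : ρ * sin (arccos (z / ρ)) = r := by
    rw [Real.sin_arccos, hr]
    have h1 : ρ ^ 2 - z ^ 2 = ρ ^ 2 * (1 - (z / ρ) ^ 2) := by field_simp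
    rw [h1, Real.sqrt_mul (by positivity), Real.sqrt_sq hρ.le]
  have hpt : ∀ ψ : ℝ, dist p (x + ρ • (sin (arccos (z / ρ)) • (cos ψ • e + sin ψ • f) +
      cos (arccos (z / ρ)) • g)) ≤ r * |φ - ψ| := by
    intro ψ
    have h1 : p - (x + ρ • (sin (arccos (z / ρ)) • (cos ψ • e + sin ψ • f) +
        cos (arccos (z / ρ)) • g)) = (a - r * cos ψ) • e + (b - r * sin ψ) • f := by
      have h2 : p - (x + ρ • (sin (arccos (z / ρ)) • (cos ψ • e + sin ψ • f) +
        cos (arccos (z / ρ)) • g)) = v - ρ • (sin (arccos (z / ρ)) • (cos ψ • e + sin ψ • f) +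
        cos (arccos (z / ρ)) • g) := by
        rw [hv]; abel
      rw [h2, hdec, smul_add, smul_smul, smul_smul, hsin, hcos, mul_div_cancel₀ _ hρ.ne']
      module
    rw [dist_eq_norm, h1]
    have h3 : ‖(a - r * cos ψ) • e + (b - r * sin ψ) • f‖ ^ 2 ≤ (r * |φ - ψ|) ^ 2 := by
      rw [lon_sq e f g he hf hef, hca, hcb, mul_pow, sq_abs]
      have h4 := Real.one_sub_sq_div_two_le_cos (x := φ - ψ)
      rw [Real.cos_sub] at h4
      have h5 := Real.sin_sq_add_cos_sq φ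
      have h6 := Real.sin_sq_add_cos_sq ψ
      have h7 : (r * cos φ - r * cos ψ) ^ 2 + (r * sin φ - r * sin ψ) ^ 2 =
          r ^ 2 * (2 - 2 * (cos φ * cos ψ + sin φ * sin ψ)) := by
        have : (r * cos φ - r * cos ψ) ^ 2 + (r * sin φ - r * sin ψ) ^ 2 =
          r ^ 2 * ((sin φ ^ 2 + cos φ ^ 2) + (sin ψ ^ 2 + cos ψ ^ 2) -
            2 * (cos φ * cos ψ + sin φ * sin ψ)) := by ring
        rw [this, h5, h6]
        ring
      rw [h7]
      exact mul_le_mul_of_nonneg_left (by linarith) (sq_nonneg r)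
    exact (pow_le_pow_iff_left₀ (norm_nonneg _) (by positivity) (by norm_num)).1 h3
  -- the two meridians
  obtain ⟨k, hk⟩ : ∃ k : ℕ, k = ⌊φ / d⌋₊ := ⟨_, rfl⟩
  have hk1 : (k : ℝ) * d ≤ φ := by
    have := Nat.floor_le (div_nonneg hφ0 hd.le)
    rw [← hk, le_div_iff₀ hd] at this
    exact this
  have hk2 : φ < ((k : ℝ) + 1) * d := by
    have := Nat.lt_floor_add_one (φ / d)
    rw [← hk, div_lt_iff₀ hd] at this
    exact this
  have hk3 : k < 2 * m := by
    have h1 : (k : ℝ) * d < (2 * m) * d := by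
      have : (2 * m : ℝ) * d = 2 * π := by rw [← hdm]; ring
      linarith
    have h2 := lt_of_mul_lt_mul_right h1 hd.le
    exact_mod_cast h2
  have hgoal : ∀ i : Fin 2 → ℕ, (∀ j, i j < m) → ∀ ψ : Fin 2 → ℝ,
      (∀ j, cos ((2 * i j + (j : ℕ)) * (π / m)) = cos (ψ j)) →
      (∀ j, sin ((2 * i j + (j : ℕ)) * (π / m)) = sin (ψ j)) →
      |φ - ψ 0| + |φ - ψ 1| ≤ d → ∃ (i : Fin 2 → ℕ) (s : ℝ), (∀ j, i j < m) ∧ 0 ≤ s ∧ s ≤ π ∧
      ∑ j : Fin 2, dist p (x + ρ • (sin s • (cos ((2 * i j + (j : ℕ)) * (π / m)) • e +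
        sin ((2 * i j + (j : ℕ)) * (π / m)) • f) + cos s • g)) ≤
        √(ρ ^ 2 - inner ℝ (p - x) g ^ 2) * (π / m) := by
    intro i hi ψ hc hs hle
    refine ⟨i, arccos (z / ρ), hi, Real.arccos_nonneg _, Real.arccos_le_pi _, ?_⟩
    rw [← hv, hz', ← hr, ← hdd]
    have h1 : ∀ j : Fin 2, dist p (x + ρ • (sin (arccos (z / ρ)) •
        (cos ((2 * i j + (j : ℕ)) * d) • e + sin ((2 * i j + (j : ℕ)) * d) • f) +
        cos (arccos (z / ρ)) • g)) ≤ r * |φ - ψ j| := by
      intro j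
      have hc' := hc j
      have hs' := hs j
      rw [← hdd] at hc' hs'
      rw [hc', hs']
      exact hpt (ψ j)
    calc _ ≤ ∑ j : Fin 2, r * |φ - ψ j| := Finset.sum_le_sum fun j _ => h1 j
      _ = r * (|φ - ψ 0| + |φ - ψ 1|) := by rw [Fin.sum_univ_two]; ring
      _ ≤ r * d := mul_le_mul_of_nonneg_left hle hr0
  rcases Nat.even_or_odd' k with ⟨l, hl | hl⟩
  · refine hgoal ![l, l] ?_ ![(2 * l : ℝ) * d, (2 * l + 1 : ℝ) * d] ?_ ?_ ?_
    · intro j; fin_cases j <;> simp <;> omega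
    · intro j; fin_cases j <;> simp [hdd]
    · intro j; fin_cases j <;> simp [hdd]
    · have e1 : (k : ℝ) = 2 * l := by rw [hl]; push_cast; ring
      rw [e1] at hk1 hk2
      simp only [Matrix.cons_val_zero, Matrix.cons_val_one]
      rw [abs_of_nonneg (by linarith), abs_of_nonpos (by linarith)]
      linarith
  · have e1 : (k : ℝ) = 2 * l + 1 := by rw [hl]; push_cast; ring
    rw [e1] at hk1 hk2
    by_cases hlm : l + 1 < m
    · refine hgoal ![l + 1, l] ?_ ![(2 * (l + 1) : ℝ) * d, (2 * l + 1 : ℝ) * d] ?_ ?_ ?_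
      · intro j; fin_cases j <;> simp <;> omega
      · intro j; fin_cases j <;> simp [hdd]
      · intro j; fin_cases j <;> simp [hdd]
      · simp only [Matrix.cons_val_zero, Matrix.cons_val_one]
        rw [abs_of_nonpos (by linarith), abs_of_nonneg (by linarith)]
        linarith
    · have hlm2 : l + 1 = m := by omega
      have e2 : (2 * (l + 1) : ℝ) * d = 2 * π := by
        rw [← hdm, ← hlm2]; push_cast; ring
      refine hgoal ![0, l] ?_ ![(2 * (l + 1) : ℝ) * d, (2 * l + 1 : ℝ) * d] ?_ ?_ ?_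
      · intro j; fin_cases j <;> simp <;> omega
      · intro j
        fin_cases j
        · simp only [e2]; simp
        · simp [hdd]
      · intro j
        fin_cases j
        · simp only [e2]; simp
        · simp [hdd]
      · simp only [Matrix.cons_val_zero, Matrix.cons_val_one]
        rw [abs_of_nonpos (by linarith), abs_of_nonneg (by linarith)]
        linarith

end S3
end H11ST
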